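import Pool.Agent.H32.LP.Pow

/-!
# Almost prime values `m ^ d + k`, `d` odd, with a large prime factor

Let `d > 1` be odd and `k` admissible. For all large `r` and `X` let `Rough d k r X` be the set of the `m` in `(X, 2 X]` for
which `m ^ d + k` has no prime factor up to `X ^ (1 / r)`. It has at least `c X / log X` elements, and `m ^ d + k` has at
most `d r` prime factors for them. For every `θ < 1` a proportion of at least `1 - θ / d - ε` of these `m` is such that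
`m ^ d + k` has a prime factor larger than `X ^ θ`. For smaller `θ` higher moments give larger proportions.

Proof: the moments of order `j` of the logarithms of the prime factors up to `X ^ θ`, `j θ < 1`, over the sifted set, from
the fundamental lemma of the sieve in progressions modulo products of `j` primes and the prime ideal theorem.
-/

set_option autoImplicit false

namespace Pool.Agent.Results.MP_10deed_nt.LargePrimeFactors

open Filter Finset Polynomial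
open Pool.Agent.H32.LP Pool.Agent.W123.RU.Poly

/-- The `m` in `(X, 2 X]` such that no prime `p ≤ X ^ (1 / r)` divides `m ^ d + k`. -/
def Rough (d : ℕ) (k : ℤ) (r X : ℕ) : Set ℕ :=
  {m | X < m ∧ m ≤ 2 * X ∧ ∀ p : ℕ, p.Prime → (p : ℝ) ≤ (X : ℝ) ^ (1 / (r : ℝ)) → ¬ (p : ℤ) ∣ (m : ℤ) ^ d + k}

/-- The product of the `θ / (d - t θ)` for `0 ≤ t < j`; it is `θ / d` for `j = 1`. -/
noncomputable def bound (d : ℕ) (θ : ℝ) (j : ℕ) : ℝ := ∏ t ∈ range j, θ / (d - t * θ)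

lemma sys (d : ℕ) (hd : Odd d) (k : ℤ) (hk : ∀ e : ℕ, e ∣ d → 1 < e → ∀ a : ℤ, k ≠ a ^ e) :
    Sys (fun _ : Fin 1 => pw d k) where
  irr _ := pw_irr d hd k hk
  deg _ := by rw [pw_deg d k hd.pos]; exact hd.pos
  lead _ := pw_lead d k hd.pos
  inj := fun _ _ _ => Subsingleton.elim _ _
  adm p hp := by
    obtain ⟨m, hm⟩ := pw_adm d hd.pos k p hp
    exact ⟨m, fun _ => hm⟩

lemma rough_eq (d : ℕ) (k : ℤ) (r X : ℕ) : Rough d k r X = RoughG (fun _ : Fin 1 => pw d k) r X := by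
  ext m
  unfold Rough RoughG
  simp only [pw_eval, forall_const]

/-- **Almost prime values `m ^ d + k`, `d` odd, with a large prime factor.** -/
theorem result (d : ℕ) (hd : Odd d) (k : ℤ)
    -- `k` is admissible for `d`
    (hk : ∀ e : ℕ, e ∣ d → 1 < e → ∀ a : ℤ, k ≠ a ^ e)
    (θ : ℝ) (j : ℕ) (hθ : 0 < θ) (hj : 1 ≤ j) (hjθ : j * θ < 1) (κ : ℝ) (hκ : κ < 1 - bound d θ j) :
    ∃ r₀ : ℕ, 1 ≤ r₀ ∧ ∀ r : ℕ, r₀ ≤ r → ∃ c : ℝ, 0 < c ∧ ∀ᶠ X : ℕ in atTop,
      c * X / Real.log X ≤ ((Rough d k r X).ncard : ℝ) ∧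
      (∀ m ∈ Rough d k r X, ((m : ℤ) ^ d + k).natAbs.primeFactorsList.length ≤ d * r) ∧
      κ * ((Rough d k r X).ncard : ℝ) ≤
        ({m | m ∈ Rough d k r X ∧ ∃ p : ℕ, p.Prime ∧ (p : ℤ) ∣ (m : ℤ) ^ d + k ∧
          (X : ℝ) ^ θ < (p : ℝ)}.ncard : ℝ) := by
  obtain ⟨r₀, hr₀, h⟩ := gen (fun _ : Fin 1 => pw d k) (sys d hd k hk) (fun _ => θ) (fun _ => j)
    (fun _ => ⟨hθ, hj, hjθ⟩) κ (by
      refine lt_of_lt_of_le hκ (le_of_eq ?_)
      rw [Fin.sum_univ_one, pw_deg d k hd.pos]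
      rfl)
  refine ⟨r₀, hr₀, fun r hr => ?_⟩
  obtain ⟨b, hb, hX⟩ := h r hr
  refine ⟨b, hb, ?_⟩
  filter_upwards [hX] with X hX
  obtain ⟨h1, h2, h3⟩ := hX
  rw [Fintype.card_fin, pow_one] at h1
  refine ⟨?_, ?_, ?_⟩
  · rw [rough_eq]
    exact h1
  · intro m hm
    rw [rough_eq] at hm
    have h4 := h2 m hm 0
    rwa [pw_eval, pw_deg d k hd.pos] at h4
  · have e : {m | m ∈ Rough d k r X ∧ ∃ p : ℕ, p.Prime ∧ (p : ℤ) ∣ (m : ℤ) ^ d + k ∧ (X : ℝ) ^ θ < (p : ℝ)} =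
        {m | m ∈ RoughG (fun _ : Fin 1 => pw d k) r X ∧ ∀ _ : Fin 1, ∃ p : ℕ, p.Prime ∧
          (p : ℤ) ∣ (pw d k).eval (m : ℤ) ∧ (X : ℝ) ^ θ < (p : ℝ)} := by
      rw [rough_eq]
      simp only [pw_eval, forall_const]
    rw [e, rough_eq]
    exact h3

end Pool.Agent.Results.MP_10deed_nt.LargePrimeFactors
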